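import Pool.Agent.H12R3.VR.Stmts

/-! Task Lim: infinitesimal generators -/

set_option autoImplicit false

open Filter Topology

namespace Pool.Agent.H3R3.VR

open H12VR

theorem taskLim : TaskLim := by
  intro c' c N hc' hR hN hlim
  have hv : ∀ n, N n - id6 ≠ 0 := fun n => sub_ne_zero.2 (hN n)
  have hvn : ∀ n, 0 < ‖N n - id6‖ := fun n => norm_pos_iff.2 (hv n)
  have hu : ∀ n, ‖N n - id6‖⁻¹ • (N n - id6) ∈ Metric.sphere (0 : Fin 6 → ℝ) 1 := by
    intro n
    rw [mem_sphere_zero_iff_norm, norm_smul, norm_inv, norm_norm]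
    exact inv_mul_cancel₀ (hvn n).ne'
  obtain ⟨X, hX, φ, hφ, hlimX⟩ := (isCompact_sphere (0 : Fin 6 → ℝ) 1).tendsto_subseq hu
  have he0 : Tendsto (fun n => ‖N n - id6‖) atTop (𝓝 0) := by
    have := (hlim.sub_const id6).norm
    simpa using this
  have he1 : Tendsto (fun n => ‖N (φ n) - id6‖) atTop (𝓝 0) := he0.comp hφ.tendsto_atTop
  have hlimX' : Tendsto (fun n => ‖N (φ n) - id6‖⁻¹ • (N (φ n) - id6)) atTop (𝓝 X) := hlimX
  have hco : ∀ i, Tendsto (fun n => ‖N (φ n) - id6‖⁻¹ * (N (φ n) i - id6 i)) atTop (𝓝 (X i)) := by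
    intro i
    have := (tendsto_pi_nhds.1 hlimX') i
    simpa using this
  set e : ℕ → ℝ := fun n => ‖N (φ n) - id6‖ with he
  have hepos : ∀ n, 0 < e n := fun n => hvn _
  set w : Fin 6 → ℕ → ℝ := fun i n => (e n)⁻¹ * (N (φ n) i - id6 i) with hw
  have hNw : ∀ i n, N (φ n) i = id6 i + e n * w i n := by
    intro i n
    have := (hepos n).ne'
    simp only [hw]
    field_simp
    ring
  have hw0 : ∀ i, Tendsto (w i) atTop (𝓝 (X i)) := hco
  have i0 : id6 0 = 1 := rfl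
  have i1 : id6 1 = 0 := rfl
  have i3 : id6 3 = 0 := rfl
  have i4 : id6 4 = 1 := rfl
  refine ⟨X, ?_, ?_, ?_, φ, hφ, e, hepos, he1, hlimX'⟩
  · intro h
    rw [h] at hX
    simp at hX
  · have h1 : ∀ n, 2 * w 0 n + e n * (w 0 n ^ 2 + c' ^ 2 * w 3 n ^ 2) = 0 := by
      intro n
      have h2 := (hR (φ n)).1
      rw [hNw 0 n, hNw 3 n, i0, i3] at h2
      have h3 := (hepos n).ne'
      have h4 : e n * (2 * w 0 n + e n * (w 0 n ^ 2 + c' ^ 2 * w 3 n ^ 2)) = 0 := by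
        linear_combination h2
      exact (mul_eq_zero.1 h4).resolve_left h3
    have h5 : Tendsto (fun n => 2 * w 0 n + e n * (w 0 n ^ 2 + c' ^ 2 * w 3 n ^ 2)) atTop
        (𝓝 (2 * X 0 + 0 * (X 0 ^ 2 + c' ^ 2 * X 3 ^ 2))) :=
      ((hw0 0).const_mul 2).add (he1.mul (((hw0 0).pow 2).add (((hw0 3).pow 2).const_mul _)))
    simp only [h1] at h5
    have h6 := tendsto_nhds_unique h5 tendsto_const_nhds
    linarith
  · have h1 : ∀ n, (1 + e n * w 0 n) * w 1 n + c' ^ 2 * (w 3 n * (1 + e n * w 4 n)) = 0 := by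
      intro n
      have h2 := (hR (φ n)).2.2
      rw [hNw 0 n, hNw 1 n, hNw 3 n, hNw 4 n, i0, i1, i3, i4] at h2
      have h3 := (hepos n).ne'
      have h4 : e n * ((1 + e n * w 0 n) * w 1 n + c' ^ 2 * (w 3 n * (1 + e n * w 4 n))) = 0 := by
        linear_combination h2
      exact (mul_eq_zero.1 h4).resolve_left h3
    have h5 : Tendsto (fun n => (1 + e n * w 0 n) * w 1 n +
        c' ^ 2 * (w 3 n * (1 + e n * w 4 n))) atTop
        (𝓝 ((1 + 0 * X 0) * X 1 + c' ^ 2 * (X 3 * (1 + 0 * X 4)))) :=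
      (((he1.mul (hw0 0)).const_add 1).mul (hw0 1)).add
        (((hw0 3).mul ((he1.mul (hw0 4)).const_add 1)).const_mul _)
    simp only [h1] at h5
    have h6 := tendsto_nhds_unique h5 tendsto_const_nhds
    linarith

end Pool.Agent.H3R3.VR
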